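import Mathlib
import Pool.Agent.Helper43.UN.GoalsH

/-!
Project UN, packet CIIa: the exact play of Case II
-/

set_option autoImplicit false

namespace Pool.Agent.Helper17.UN

open Finset
open Pool.Agent.Lead.Sh
open Pool.Agent.Helper43.Ah (rowsD card_rowsD)
open Pool.Agent.Helper43.Hw (T T_choose)
open Pool.Agent.Helper18.UW (lg)
open Pool.Agent.Helper43.UN

theorem lc_zero (lam : ℕ → ℕ) (j : ℕ) : lc lam 0 j = lam j := by
  simp [lc]

theorem goalCIIa : GoalCIIa := by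
  intro hPf hRL A0 Hg m M Mb R A β lam h hB
  have hM := h.sh.M1
  have hA := h.sh.hA
  have hR := h.sh.hR
  have hAR := h.sh.hAR
  have hlg : 1 ≤ lg M ^ 3 := Nat.one_le_pow _ _ (by unfold lg; omega)
  have hp : 2 ^ 30 ≤ 2 ^ 400 := Nat.pow_le_pow_right (by norm_num) (by norm_num)
  have hbigA : 2 ^ 30 * M ≤ A := by
    calc 2 ^ 30 * M = 2 ^ 30 * 1 * M := by rw [Nat.mul_one]
      _ ≤ 2 ^ 400 * lg M ^ 3 * M :=
        Nat.mul_le_mul_right _ (Nat.mul_le_mul hp hlg)
      _ ≤ A := hA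
  have hbigR : 2 ^ 30 * M ≤ R := by
    calc 2 ^ 30 * M = 2 ^ 30 * 1 * M := by rw [Nat.mul_one]
      _ ≤ 2 ^ 400 * lg M ^ 3 * M :=
        Nat.mul_le_mul_right _ (Nat.mul_le_mul hp hlg)
      _ ≤ R := hR
  -- the profile
  obtain ⟨p1, -, -, -, p5, -⟩ := hPf M Mb R A β 0 0 lam h.sh (by omega) (by omega)
    (Or.inl ⟨rfl, rfl⟩)
  simp only [lc_zero, Nat.zero_add] at p1 p5
  have hcard : (rowsD R lam).card = ∑ z ∈ range R, lam (R - 1 - z) := by
    rw [card_rowsD, ← Finset.sum_range_reflect]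
  set cd := (rowsD R lam).card with hcd
  have harea : A * R ≤ 5 * cd := by
    rw [hcd, card_rowsD]; exact h.sh.area
  -- the choice of μ
  obtain ⟨μ, hμ⟩ : ∃ μ, μ = min M (Nat.sqrt (A / 28)) := ⟨_, rfl⟩
  have hμM : μ ≤ M := by rw [hμ]; exact min_le_left _ _
  have hμs : μ ≤ Nat.sqrt (A / 28) := by rw [hμ]; exact min_le_right _ _
  have hμ1 : 1 ≤ μ := by
    rw [hμ]
    refine le_min hM ?_
    rw [Nat.le_sqrt]
    omega
  have hμA : 28 * μ ^ 2 ≤ A := by
    have h1 : μ * μ ≤ A / 28 := Nat.le_sqrt.1 hμs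
    have h2 : 28 * (A / 28) ≤ A := Nat.mul_div_le A 28
    nlinarith
  obtain ⟨Bg, hBg⟩ : ∃ Bg, Bg = (A0 \ Hg).filter (fun k => A < 28 * m k ^ 2) := ⟨_, rfl⟩
  have hBsub : Bg ⊆ A0 := by
    intro k hk
    rw [hBg, mem_filter, mem_sdiff] at hk
    exact hk.1.1
  have hBH : ∀ k ∈ Bg, k ∉ Hg := by
    intro k hk
    rw [hBg, mem_filter, mem_sdiff] at hk
    exact hk.1.2
  have hdis : Disjoint Hg Bg := by
    rw [Finset.disjoint_left]
    intro k hk hk'
    exact hBH k hk' hk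
  have hpos : ∀ k ∈ A0, 1 ≤ m k := by
    intro k hk
    by_cases h1 : k ∈ Hg
    · exact (h.hug k h1).1
    · exact (h.oth k hk h1).1
  have hsmall : ∀ k ∈ A0, k ∉ Hg → k ∉ Bg → m k ≤ μ := by
    intro k hk h1 h2
    have h3 : 28 * m k ^ 2 ≤ A := by
      by_contra h4
      push Not at h4
      apply h2
      rw [hBg, mem_filter, mem_sdiff]
      exact ⟨⟨hk, h1⟩, h4⟩
    rw [hμ]
    refine le_min (h.oth k hk h1).2 ?_
    rw [Nat.le_sqrt]
    rw [Nat.le_div_iff_mul_le (by norm_num)]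
    nlinarith
  obtain ⟨m', N00, N0, N, n1, n2, q1, q2, q3, q4, q5, q6, q7, q8, q9⟩ :=
    hRL A0 Hg Bg m h.sub hBsub hdis hpos
  obtain ⟨exc, hexc⟩ : ∃ exc, ∑ k ∈ A0, (m k + 1).choose 2 = cd + exc :=
    ⟨_, (Nat.add_sub_cancel' h.lo).symm⟩
  have hexM : exc ≤ M := by
    have := h.hi
    rw [← hcd] at this
    omega
  have hmain : ∀ c, N0 ≤ c → c < N → 1 ≤ m' c ∧ m' c ≤ μ := by
    intro c h1 h2
    obtain ⟨k, k1, k2, k3, k4⟩ := q3 c h1 h2
    rw [k4]
    exact ⟨hpos k k1, hsmall k k1 k2 k3⟩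
  have htot : ∑ c ∈ range N, (m' c + 1).choose 2 = ∑ z ∈ range R, lam (R - 1 - z) + exc := by
    rw [q8, hexc, hcard]
  -- the last rows
  have hlamle : ∀ j < R, lam j ≤ A := by
    intro j hj
    have h1 := p1.le (R - 1 - j) (by omega)
    have h2 : R - 1 - (R - 1 - j) = j := by omega
    simpa [h2] using h1
  have hMR : 60 * M ≤ R := by omega
  have hsplit : ∑ z ∈ range R, lam (R - 1 - z) =
      ∑ z ∈ range (R - 60 * M), lam (R - 1 - z) +
        ∑ z ∈ range (60 * M), lam (R - 1 - (R - 60 * M + z)) := by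
    have h1 : R = (R - 60 * M) + 60 * M := by omega
    conv_lhs => rw [h1]
    rw [Finset.sum_range_add]
    congr 1
    · refine Finset.sum_congr rfl fun z _ => ?_
      congr 1
      omega
    · refine Finset.sum_congr rfl fun z _ => ?_
      congr 1
      omega
  have hlast : ∑ z ∈ range (60 * M), lam (R - 1 - (R - 60 * M + z)) ≤ 60 * M * A := by
    calc ∑ z ∈ range (60 * M), lam (R - 1 - (R - 60 * M + z))
        ≤ ∑ _z ∈ range (60 * M), A := by
          refine Finset.sum_le_sum fun z hz => hlamle _ ?_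
          omega
      _ = 60 * M * A := by simp
  have hMA : 2 ^ 30 * (M * A) ≤ 5 * cd := by
    calc 2 ^ 30 * (M * A) = (2 ^ 30 * M) * A := by ring
      _ ≤ R * A := by gcongr
      _ = A * R := by ring
      _ ≤ 5 * cd := harea
  have hMA' : 100000 * (M * A) ≤ 5 * cd := by
    refine le_trans ?_ hMA
    gcongr
    norm_num
  have hA2 : A ^ 2 ≤ 1280 * cd := by
    calc A ^ 2 = A * A := by ring
      _ ≤ A * (2 ^ 8 * R) := by gcongr
      _ = 2 ^ 8 * (A * R) := by ring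
      _ ≤ 2 ^ 8 * (5 * cd) := by gcongr
      _ = 1280 * cd := by ring
  have hcdpos : 0 < cd := by
    have : 0 < A * R := Nat.mul_pos (by omega) (by omega)
    omega
  have hT : ∀ n : ℕ, ∑ c ∈ range n, T (m' c) = ∑ c ∈ range n, (m' c + 1).choose 2 :=
    fun n => Finset.sum_congr rfl fun c _ => T_choose _
  have hBt : 10 ^ 6 * ∑ k ∈ Bg, (m k + 1).choose 2 < A ^ 2 := by rw [hBg]; exact hB
  have hHt : 8 * ∑ k ∈ Hg, (m k + 1).choose 2 ≤ cd := h.ar
  refine ⟨m', μ, N00, N0, N, exc, ?_⟩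
  refine ⟨hμA, ?_, ?_, q5, htot, q9⟩
  · refine ⟨p1, hμ1, hμM, n1, n2, ?_, ?_, hmain, ?_, ?_, ?_, ?_⟩
    · intro c hc
      obtain ⟨k, k1, k2⟩ := q1 c hc
      rw [k2]
      exact h.hug k k1
    · intro c hc hc'
      obtain ⟨k, k1, k2⟩ := q2 c hc hc'
      rw [k2]
      exact h.oth k (hBsub k1) (hBH k k1)
    · rw [hT, q6]
      exact p5 _ hHt
    · rw [hT, q7]
      have h1 := hsplit
      rw [← hcard] at h1
      generalize ∑ z ∈ range (R - 60 * M), lam (R - 1 - z) = X1 at h1 ⊢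
      generalize ∑ z ∈ range (60 * M), lam (R - 1 - (R - 60 * M + z)) = X2 at h1 hlast
      generalize ∑ k ∈ Bg, (m k + 1).choose 2 = X3 at hBt ⊢
      generalize ∑ k ∈ Hg, (m k + 1).choose 2 = X4 at hHt ⊢
      have h2 : 60 * M * A = 60 * (M * A) := by ring
      rw [h2] at hlast
      generalize M * A = X5 at hlast hMA'
      clear hMA
      generalize A ^ 2 = X6 at hBt hA2
      omega
    · have h1 : ((∑ c ∈ range N, T (m' c) : ℕ) : ℤ) =
          ((∑ z ∈ range R, lam (R - 1 - z) + exc : ℕ) : ℤ) := by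
        rw [hT, htot]
      push_cast at h1
      rw [h1]
      ring
    · have h1 : |(-(exc : ℤ))| = (exc : ℤ) := by
        rw [abs_neg, Nat.abs_cast]
      rw [h1]
      have h2 : 4 * exc ≤ μ * A := by
        calc 4 * exc ≤ 4 * M := by gcongr
          _ ≤ 1 * A := by omega
          _ ≤ μ * A := by gcongr
      exact_mod_cast h2
  · intro c hc
    by_cases h1 : c < N
    · exact hmain c hc h1
    · rw [q4 c (by omega)]
      exact ⟨le_rfl, hμ1⟩

end Pool.Agent.Helper17.UN
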